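import Mathlib
import Pool.Agent.P.MP_2f562c_al.Defs
import Pool.Agent.P.MP_2f562c_al.Main

open Module Pool.Agent.P.MP_2f562c_al

namespace Pool.Agent.Results.MP_2f562c_al.Classification

theorem result {F V : Type*} [Field F] [AddCommGroup V] [Module F V] (d : ℕ) (hd : 80 ≤ d)
    (A X : V →ₗ[F] V) (hAX : LeonardPair d A X)
    (b : Basis (Fin (d + 1)) F V) (hb : DiagTri b A X)
    (θ : ℕ → F) (hθ : ∀ i : Fin (d + 1), θ i = LinearMap.toMatrix b b A i i)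
    (β : F) (hβ : ∀ i, 2 ≤ i → i + 1 ≤ d → θ (i - 2) - θ (i + 1) = (β + 1) * (θ (i - 1) - θ i))
    (q : AlgebraicClosure F) (hq0 : q ≠ 0) (hq : q + q⁻¹ = algebraMap F (AlgebraicClosure F) β)
    (hq1 : ∀ n : ℕ, 0 < n → q ^ n ≠ 1) (K : V ≃ₗ[F] V) :
    (LeonardPair d A (K : V →ₗ[F] V) ∧ LeonardPair d X (K.symm : V →ₗ[F] V)) ↔
    ∃ (v : Basis (Fin (d + 1)) F V) (μ σ ρ r r' a₀ a₁ p e x₀ x₁ x₂ : F),
      μ ≠ 0 ∧ σ ≠ 0 ∧ r ≠ 0 ∧ r' ≠ 0 ∧ ρ + ρ⁻¹ = β ∧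
      (∀ i, 1 ≤ i → i ≤ d → supA d σ a₁ p e i ≠ 0) ∧ Family d σ ρ r r' a₁ p e x₁ x₂ ∧
      LinearMap.toMatrix v v (K : V →ₗ[F] V) =
        Matrix.diagonal (fun i : Fin (d + 1) => μ * σ ^ (i : ℕ)) ∧
      LinearMap.toMatrix v v A = tri d (fun _ => 1) (diagA d σ a₀ a₁ p) (supA d σ a₁ p e) ∧
      LinearMap.toMatrix v v X = tri d (fun i => r * ρ ^ i)
        (fun i => x₀ + x₁ * σ ^ i + x₂ * σ ^ (2 * i))
        (fun i => r' * ρ ^ (i - 1) * supA d σ a₁ p e i) := by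
  have hN : NR β := NR.of_q _ hq0 hq hq1
  constructor
  · rintro ⟨h1, h2⟩
    obtain ⟨γ, ϱ, g0, g1, γ2, ϱ2, f0, f1, w1, w2⟩ :=
      twoAW (by omega) hAX hb θ hθ (hβ 2 le_rfl (by omega))
    exact necessity hd hAX w1 w2 hN (fun x => K.symm_apply_apply x)
      (fun x => K.apply_symm_apply x) h1 h2
  · rintro ⟨v, μ, σ, ρ, r, r', a₀, a₁, p, e, x₀, x₁, x₂, h1, h2, h3, h4, h5, h6, h7, h8, h9, h10⟩
    exact sufficiency (by omega) hAX hN (fun x => K.symm_apply_apply x) h1 h2 h3 h4 h5 h6 h7 h8 h9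
      h10

end Pool.Agent.Results.MP_2f562c_al.Classification
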